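import Pool.Agent.helper84.NR.SpecW

set_option autoImplicit false

namespace Pool.Agent.helper84.NR

open scoped Classical
open Finset

theorem RTA : RTA_stmt := by
  intro V F M x y A i hne hAx hi1 hin hal
  obtain ⟨I1, I2, I3, I4, I5⟩ := h_IDX V F M.toCyc A (st M x A)
  obtain ⟨E1, E2⟩ := h_EDG V F M
  obtain ⟨W0, Wn⟩ := h_WW0 V F M x A hAx
  have hx0 : ¬ ∃ B, OnV M.toCyc B y ∧ OnV M.toCyc B x := by
    rintro ⟨B, hBy, hBx⟩
    exact hne B ⟨hBx, hBy⟩
  have hon : ∀ j, OnV M.toCyc A (ww M x A j) := fun j => ⟨st M x A + j, rfl⟩
  have hnex : ∀ j, 1 ≤ j → j < M.len A → x ≠ ww M x A j := by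
    intro j hj1 hj2 he
    have := I1 0 j (by omega) hj2 (W0.trans he)
    omega
  -- a face other than `A` at `x` and `u j`
  have hedge : ∀ f j, OnV M.toCyc f x → f ≠ A → 1 ≤ j → j < M.len A → OnV M.toCyc f (ww M x A j) →
      (j = 1 ∨ j = M.len A - 1) ∧ Adj M.toCyc x (ww M x A j) := by
    intro f j hfx hfA hj1 hj2 hfj
    have h1 := (M.poly A f (Ne.symm hfA) x (ww M x A j) (hnex j hj1 hj2) hAx (hon j) hfx hfj).1
    refine ⟨?_, A, h1⟩
    have h2 : OnE M.toCyc A s(ww M x A 0, ww M x A j) := by
      rw [W0]
      exact h1
    rcases I4 0 j (by omega) hj2 h2 with h3 | h3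
    · left
      omega
    · right
      exact h3.2
  by_cases hadj : Adj M.toCyc x (ww M x A i)
  · refine ⟨1, fun j => if j = 0 then x else ww M x A i, le_rfl, rfl, rfl, ?_, ?_, ?_, ?_⟩
    · intro j j' hj hj' h
      have hne' := hnex i hi1 hin
      have c1 : j = 0 ∨ j = 1 := by omega
      have c2 : j' = 0 ∨ j' = 1 := by omega
      rcases c1 with rfl | rfl <;> rcases c2 with rfl | rfl
      · rfl
      · exact absurd h hne'
      · exact absurd h.symm hne'
      · rfl
    · intro j hj
      have : j = 0 := by omega
      subst this
      exact E2 A x _ hadj hAx (hon i)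
    · intro j hj
      have : j = 0 := by omega
      subst this
      exact hx0
    · intro f _ _ j hj1 hj2 _
      omega
  · rcases hal with hal | hal
    · refine ⟨i, fun j => ww M x A j, hi1, W0, rfl, ?_, ?_, ?_, ?_⟩
      · intro j j' hj hj' h
        exact I1 j j' (by omega) (by omega) h
      · intro j _
        exact ⟨st M x A + j, rfl⟩
      · intro j hj
        rcases Nat.eq_zero_or_pos j with h0 | h0
        · subst h0
          show ¬ ∃ B, OnV M.toCyc B y ∧ OnV M.toCyc B (ww M x A 0)
          rw [W0]
          exact hx0
        · exact hal j h0 hj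
      · intro f hfx hfA j hj1 hj2 hfj
        obtain ⟨h1, h2⟩ := hedge f j hfx hfA hj1 (by omega) hfj
        rcases h1 with h1 | h1
        · exact h1
        · exfalso
          have : j = i := by omega
          rw [this] at h2
          exact hadj h2
    · refine ⟨M.len A - i, fun j => ww M x A (M.len A - j), by omega, ?_, ?_, ?_, ?_, ?_, ?_⟩
      · show ww M x A (M.len A - 0) = x
        rw [Nat.sub_zero]
        exact Wn
      · show ww M x A (M.len A - (M.len A - i)) = ww M x A i
        have : M.len A - (M.len A - i) = i := by omega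
        rw [this]
      · intro j j' hj hj' h
        have h' : ww M x A (M.len A - j) = ww M x A (M.len A - j') := h
        rcases Nat.eq_zero_or_pos j with h0 | h0
        · rcases Nat.eq_zero_or_pos j' with h0' | h0'
          · omega
          · exfalso
            subst h0
            rw [Nat.sub_zero, Wn] at h'
            exact hnex (M.len A - j') (by omega) (by omega) h'
        · rcases Nat.eq_zero_or_pos j' with h0' | h0'
          · exfalso
            subst h0'
            rw [Nat.sub_zero, Wn] at h'
            exact hnex (M.len A - j) (by omega) (by omega) h'.symm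
          · have := I1 (M.len A - j) (M.len A - j') (by omega) (by omega) h'
            omega
      · intro j hj
        refine ⟨st M x A + (M.len A - (j + 1)), ?_⟩
        have h1 : st M x A + (M.len A - (j + 1)) + 1 = st M x A + (M.len A - j) := by omega
        rw [h1]
        exact Sym2.eq_swap
      · intro j hj
        rcases Nat.eq_zero_or_pos j with h0 | h0
        · subst h0
          show ¬ ∃ B, OnV M.toCyc B y ∧ OnV M.toCyc B (ww M x A (M.len A - 0))
          rw [Nat.sub_zero, Wn]
          exact hx0
        · exact hal (M.len A - j) (by omega) (by omega)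
      · intro f hfx hfA j hj1 hj2 hfj
        obtain ⟨h1, h2⟩ := hedge f (M.len A - j) hfx hfA (by omega) (by omega) hfj
        rcases h1 with h1 | h1
        · exfalso
          have : M.len A - j = i := by omega
          rw [this] at h2
          exact hadj h2
        · omega

end Pool.Agent.helper84.NR
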